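import Mathlib
import Pool.Agent.Run7.h595.CM.Export

set_option autoImplicit false

/-!
# Composition of linear systems which are not special

A system is a multiset of multiplicities at general points of the complex projective plane. It is
`Critical D` if its number of conditions is between those of one point of multiplicity `D` and of
one point of multiplicity `D + 1`, and if it is non-special in the two degrees `D - 1` and
`D`. There is no condition on the multiplicities. Uniform systems (`N` points of the same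
multiplicity) with `N = 1`, `N = 21` or `N ≥ 37` or `N` as in (2) are critical (last part of the
theorem).

Let `v i` be `Critical (D i)` for `i < n`, and let `W` be a further system.

(1) If all systems `(u, W)` with `u i ∈ {D i, D i + 1}` are non-special in degree `d`, then
so is `(v, W)`, in which the `i`-th point of `u` is replaced by the whole system `v i`.

(2) If `n` is `4 ^ (k + 1)`, `9 * 4 ^ k` or `13 * 4 ^ k`, or divisible by four and at least `144`, or
at least `200`, and all `D i` are equal, then the union of the `v i` is non-special in EVERY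
degree. The multiplicities, their ratios and the number of different multiplicities are arbitrary;
four or nine systems are enough. Examples: `4` or `9` copies of a system which is non-special
in its two critical degrees; one point of multiplicity `3 m` and `27` points of multiplicity `m`.

(3) `n` of `N ≥ 37` points of multiplicity `m ≥ (N + 6) / 2` may be replaced by arbitrary systems
which are `Critical m`, if `n < 7 √N / 6 - c / 2 - 9 / 8` or `n ≤ N / 4 - c - 2 √N / 3 - 23 / 8`,
`c = 0, 5, 2, 3` for `N ≡ 0, 1, 2, 3` modulo four, and the result is non-special in EVERY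
degree.

By the first bullet of `What is known` these systems are not `(-1)`-special either.
-/

namespace Pool.Agent.Results.MP_6b2d39_ag.Composition

open MvPolynomial Finset

/-- Forms of degree `d` vanishing to order at least `w i` at the points `(P i 0 : P i 1 : 1)`. -/
noncomputable def forms {n : ℕ} (P : Fin n → Fin 2 → ℂ) (d : ℕ) (w : Fin n → ℕ) :
    Submodule ℂ (MvPolynomial (Fin 3) ℂ) :=
  homogeneousSubmodule (Fin 3) ℂ d ⊓
    Submodule.restrictScalars ℂ
      (⨅ i : Fin n, (Ideal.span {X 0 - C (P i 0) * X 2, X 1 - C (P i 1) * X 2} :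
        Ideal (MvPolynomial (Fin 3) ℂ)) ^ (w i))

/-- The system of the curves of degree `d` with the multiplicities `w` at the points `P` is not
special: its projective dimension is `max (virtdim, -1)`. -/
def NotSpecial {n : ℕ} (P : Fin n → Fin 2 → ℂ) (d : ℕ) (w : Fin n → ℕ) : Prop :=
  (Module.finrank ℂ ↥(forms P d w) : ℤ) - 1 =
    max (((d + 2).choose 2 : ℤ) - 1 - ∑ i, ((w i + 1).choose 2 : ℤ)) (-1)

/-- The multiset of the multiplicities. -/
def mults {n : ℕ} (w : Fin n → ℕ) : Multiset ℕ := Multiset.map w Finset.univ.val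

/-- The number of conditions. -/
def conditions (v : Multiset ℕ) : ℕ := (v.map fun a => (a + 1).choose 2).sum

/-- The system of degree `d` with the multiplicities `v` at general points is not special. -/
def NotSpecialIn (d : ℕ) (v : Multiset ℕ) : Prop :=
  ∀ (n : ℕ) (w : Fin n → ℕ), mults w = v →
    ∃ F : MvPolynomial (Fin n × Fin 2) ℂ, F ≠ 0 ∧ ∀ P : Fin n → Fin 2 → ℂ,
      eval (fun ij : Fin n × Fin 2 => P ij.1 ij.2) F ≠ 0 → NotSpecial P d w

/-- For general points (one nonempty open set for all degrees) the systems of curves with the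
multiplicities `v` are not special, in every degree. -/
def NeverSpecial (v : Multiset ℕ) : Prop :=
  ∀ (n : ℕ) (w : Fin n → ℕ), mults w = v →
    ∃ F : MvPolynomial (Fin n × Fin 2) ℂ, F ≠ 0 ∧ ∀ P : Fin n → Fin 2 → ℂ,
      eval (fun ij : Fin n × Fin 2 => P ij.1 ij.2) F ≠ 0 → ∀ d : ℕ, NotSpecial P d w

/-- `v` is non-special in the degrees `D - 1` and `D`, and its number of conditions is between those
of a point of multiplicity `D` and of a point of multiplicity `D + 1`. -/
def Critical (D : ℕ) (v : Multiset ℕ) : Prop :=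
  1 ≤ D ∧ (D + 1).choose 2 ≤ conditions v ∧ conditions v ≤ (D + 2).choose 2 ∧
    NotSpecialIn (D - 1) v ∧ NotSpecialIn D v

/-- The numbers of systems in (2). -/
def Number (a : ℕ) : Prop :=
  200 ≤ a ∨ (144 ≤ a ∧ 4 ∣ a) ∨ ∃ k, a = 4 ^ (k + 1) ∨ a = 9 * 4 ^ k ∨ a = 13 * 4 ^ k

/-- `0, 5, 2, 3` for `n ≡ 0, 1, 2, 3` modulo four. -/
def spare (n : ℕ) : ℕ := if n % 4 = 1 then 5 else n % 4

theorem pred_iff {n : ℕ} {P : Fin n → Fin 2 → ℂ} {d : ℕ} {w : Fin n → ℕ} :
    NotSpecial P d w ↔ Pool.Agent.H932R3.ExpDim ℂ w P d := by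
  unfold NotSpecial Pool.Agent.H932R3.ExpDim
  have e : ∑ i, ((w i + 1).choose 2 : ℤ) = ((∑ i, (w i + 1).choose 2 : ℕ) : ℤ) := by
    push_cast
    rfl
  unfold forms
  rw [e]
  omega

theorem good_eq : NotSpecialIn = Pool.Agent.Run7.h595.CM.SM ℂ := by
  funext d v
  apply propext
  constructor
  · intro h n w hw
    obtain ⟨F, hF, hF'⟩ := h n w hw
    exact ⟨F, hF, fun P hP => pred_iff.1 (hF' P hP)⟩
  · intro h n w hw
    obtain ⟨F, hF, hF'⟩ := h n w hw
    exact ⟨F, hF, fun P hP => pred_iff.2 (hF' P hP)⟩

theorem all_eq : NeverSpecial = Pool.Agent.Run7.h595.CM.SMAll ℂ := by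
  funext v
  apply propext
  constructor
  · intro h n w hw
    obtain ⟨F, hF, hF'⟩ := h n w hw
    exact ⟨F, hF, fun P hP d => pred_iff.1 (hF' P hP d)⟩
  · intro h n w hw
    obtain ⟨F, hF, hF'⟩ := h n w hw
    exact ⟨F, hF, fun P hP d => pred_iff.2 (hF' P hP d)⟩

theorem result :
    (∀ (n : ℕ) (D : Fin n → ℕ) (v : Fin n → Multiset ℕ) (W : Multiset ℕ),
      (∀ i, Critical (D i) (v i)) →
      (∀ d : ℕ,
        (∀ u : Fin n → ℕ, (∀ i, u i = D i ∨ u i = D i + 1) → NotSpecialIn d (mults u + W)) →
        NotSpecialIn d (∑ i, v i + W)) ∧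
      ((W = 0 ∧ Number n ∧ ∀ i j, D i = D j) ∨
        (∃ N m : ℕ, 37 ≤ N ∧ n ≤ N ∧ N + 6 ≤ 2 * m ∧ (∀ i, D i = m) ∧
          W = Multiset.replicate (N - n) m ∧
          ((n : ℝ) + (spare N : ℝ) / 2 + 9 / 8 < 7 * √(N : ℝ) / 6 ∨
            (n : ℝ) + spare N + 2 * √(N : ℝ) / 3 + 23 / 8 ≤ (N : ℝ) / 4)) →
        NeverSpecial (∑ i, v i + W))) ∧
    (∀ N m D : ℕ, 1 ≤ m → (N = 1 ∨ N = 21 ∨ 37 ≤ N ∨ Number N) → 1 ≤ D →
      (D + 1).choose 2 ≤ N * (m + 1).choose 2 → N * (m + 1).choose 2 ≤ (D + 2).choose 2 →
      Critical D (Multiset.replicate N m)) := by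
  have h := Pool.Agent.Run7.h595.CM.master ℂ
  rw [← good_eq, ← all_eq] at h
  exact h

end Pool.Agent.Results.MP_6b2d39_ag.Composition
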