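import Mathlib
import Pool.Agent.Run7.h866.NU.Class

set_option autoImplicit false

/-!
# The Harbourne-Hirschowitz conjecture for classes whose reduced form has a near-uniform part

A vector `v` of `k` multiplicities is near-uniform if `k ≥ 200` and `v j ∈ {m, m + 1}` for some
`m ≥ 1`, or `k ≥ 37` and `v` is close to a constant vector `m ≥ (k + 6) / 2`. A class `(d; w)` is
controlled if for a near-uniform vector `v` on some of the points
* `w = v` at these points and `w ≤ 1` at the other ones, or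
* `w ≤ v` at these points, `w ≤ 1` at the other ones and `∑ (v j + 1).choose 2 ≤ (d + 2).choose 2`, or
* `w ≥ v` at these points and `(d + 2).choose 2 ≤ ∑ (v j + 1).choose 2`.

Every controlled class has the expected dimension at general points, and so has every class which
finitely many reflections in classes `H - E_i - E_j - E_k` carry to a controlled standard class. For
every `(d; w)` and general points the linear system `(d; w)` is special if and only if it is
`(-1)`-special, unless its reduced form is a special standard class which is not controlled.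
-/

namespace Pool.Agent.Results.MP_6b2d39_ag.NearOrbits

open MvPolynomial Pool.Agent.TH167.SHDefs

/-- The cost of a multiplicity `e ≤ m + 1`. -/
def cost (m e : ℕ) : ℕ := if e < m then 4 * (m - e) - 2 else if e = m then 0 else 1

/-- `0, 5, 2, 3` for `k ≡ 0, 1, 2, 3` modulo four. -/
def spare (k : ℕ) : ℕ := if k % 4 = 1 then 5 else k % 4

/-- Entries `m`, `m + 1` at `200` or more points, or close to a constant vector at `37` or more. -/
def NearUniform {k : ℕ} (v : Fin k → ℕ) : Prop :=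
  (200 ≤ k ∧ ∃ m : ℕ, 1 ≤ m ∧ ∀ j, v j = m ∨ v j = m + 1) ∨
  (37 ≤ k ∧ ∃ m : ℕ, k + 6 ≤ 2 * m ∧ (∀ j, v j ≤ m + 1) ∧
    (((∑ j, cost m (v j) : ℕ) : ℝ) + (spare k : ℝ) / 2 + 9 / 8 < 7 * Real.sqrt k / 6 ∨
      ((∑ j, cost m (v j) : ℕ) : ℝ) + spare k + 2 * Real.sqrt k / 3 + 23 / 8 ≤ (k : ℝ) / 4))

/-- The controlled classes. -/
def Controlled {n : ℕ} (d : ℕ) (w : Fin n → ℕ) : Prop :=
  ∃ (k : ℕ) (e : Fin k ↪ Fin n) (v : Fin k → ℕ), NearUniform v ∧
    (((∀ i, i ∉ Finset.univ.map e → w i ≤ 1) ∧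
        ((∀ j, w (e j) = v j) ∨
          ((∀ j, w (e j) ≤ v j) ∧ ∑ j, (v j + 1).choose 2 ≤ (d + 2).choose 2))) ∨
      ((∀ j, v j ≤ w (e j)) ∧ (d + 2).choose 2 ≤ ∑ j, (v j + 1).choose 2))

/-- For general points the linear system has the expected dimension. -/
def Expected {n : ℕ} (d : ℕ) (w : Fin n → ℕ) : Prop :=
  ∃ F : MvPolynomial (Fin n × Fin 2) ℂ, F ≠ 0 ∧ ∀ P : Fin n → Fin 2 → ℂ,
    MvPolynomial.eval (fun ij : Fin n × Fin 2 => P ij.1 ij.2) F ≠ 0 →
      dimL P d w = max (virtdim d w) (-1)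

/-- The reflection of the class `a = (d; w)`, `d H - ∑ w l E l`, in the class
`H - E (i 0) - E (i 1) - E (i 2)`: with `δ = d - w (i 0) - w (i 1) - w (i 2)`, the numbers
`d`, `w (i 0)`, `w (i 1)`, `w (i 2)` are increased by `δ`. -/
def reflect {n : ℕ} (i : Fin 3 → Fin n) (a : ℤ × (Fin n → ℤ)) : ℤ × (Fin n → ℤ) :=
  (a.1 + (a.1 - a.2 (i 0) - a.2 (i 1) - a.2 (i 2)),
    fun l => a.2 l + if l = i 0 ∨ l = i 1 ∨ l = i 2 then a.1 - a.2 (i 0) - a.2 (i 1) - a.2 (i 2)
      else 0)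

/-- Finitely many reflections carry `(d; w)` to `(d'; w')`. -/
def Carries {n : ℕ} (d : ℕ) (w : Fin n → ℕ) (d' : ℕ) (w' : Fin n → ℕ) : Prop :=
  Relation.ReflTransGen
    (fun a b : ℤ × (Fin n → ℤ) => ∃ i : Fin 3 → Fin n, Function.Injective i ∧ b = reflect i a)
    ((d : ℤ), fun l => (w l : ℤ)) ((d' : ℤ), fun l => (w' l : ℤ))

/-- The class is standard. -/
def Standard {n : ℕ} (d : ℕ) (w : Fin n → ℕ) : Prop :=
  ∀ i j k : Fin n, i ≠ j → i ≠ k → j ≠ k → w i + w j + w k ≤ d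

theorem of_open {n : ℕ} {d : ℕ} {w : Fin n → ℕ}
    (h : ∀ {K : Type} [Field K] [CharZero K] {P : Fin n → Fin 2 → K},
      AlgebraicIndependent ℚ (fun ij : Fin n × Fin 2 => P ij.1 ij.2) →
        Pool.Agent.H932R3.ExpDim K w P d) : Expected d w := by
  obtain ⟨F, hF, hF'⟩ := Pool.Agent.TH442.NF.to_open h
  refine ⟨F.map (algebraMap ℚ ℂ), Pool.Agent.H932R3.map_ne_zero_of hF, fun P hP => ?_⟩
  rw [MvPolynomial.eval_map] at hP
  have h1 : Module.finrank ℂ ↥(sys P d w) =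
      Nat.choose (d + 2) 2 - ∑ i, Nat.choose (w i + 1) 2 := hF' (L := ℂ) P hP
  have h2 : ∑ i, ((w i + 1).choose 2 : ℤ) = ((∑ i, Nat.choose (w i + 1) 2 : ℕ) : ℤ) := by
    push_cast
    rfl
  unfold dimL virtdim
  rw [h1, h2]
  omega

theorem ctrl_of {n d : ℕ} {w : Fin n → ℕ} (h : Controlled d w) :
    Pool.Agent.Run7.h866.NU.Ctrl d w := by
  obtain ⟨k, e, v, hv, h⟩ := h
  refine ⟨k, e, v, ?_, h⟩
  have ec : ∀ m e, cost m e = Pool.Agent.Run7.h866.NU.cst m e := fun _ _ => rfl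
  have es : ∀ t, spare t = Pool.Agent.Run7.h866.NU.cc t := fun _ => rfl
  rcases hv with ⟨h1, m, hm, h2⟩ | ⟨h1, m, hm, h2, h3⟩
  · exact Or.inl ⟨h1, m, hm, h2⟩
  · simp only [ec, es] at h3
    exact Or.inr ⟨m, h1, hm, h2, h3⟩

theorem result (n : ℕ) (hn : 4 ≤ n) (d : ℕ) (w : Fin n → ℕ) :
    (Controlled d w → Expected d w) ∧
    (∀ (d' : ℕ) (w' : Fin n → ℕ), Carries d w d' w' → Standard d' w' → Controlled d' w' →
      Expected d w) ∧
    ∃ F : MvPolynomial (Fin n × Fin 2) ℂ, F ≠ 0 ∧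
      ∀ P : Fin n → Fin 2 → ℂ, MvPolynomial.eval (fun ij : Fin n × Fin 2 => P ij.1 ij.2) F ≠ 0 →
        (MinusOneSpecial P d w → Special P d w) ∧
        (Special P d w → MinusOneSpecial P d w ∨
          ∃ (d'' : ℕ) (w'' : Fin n → ℕ) (k : ℕ) (G : Fin k → MvPolynomial (Fin 3) ℂ)
            (e : Fin k → ℕ) (u : Fin k → Fin n → ℕ) (N : Fin k → ℕ) (d' : ℕ) (w' : Fin n → ℕ),
            Decomp P d w d'' w'' G e u N ∧
            Relation.ReflTransGen Quadratic (d'', w'') (d', w') ∧ Standard d' w' ∧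
            Special P d' w' ∧ ¬ Controlled d' w') :=
  ⟨fun h => of_open fun hP => Pool.Agent.Run7.h866.NU.ctrl_exp (ctrl_of h) hP,
    fun _ _ hc hs hG => of_open fun {_ _ _ P} hP => Pool.Agent.TH442.NF.up_enef hP hc
      (Pool.Agent.TH442.NF.enef_of_std hn P hs)
      (Pool.Agent.Run7.h866.NU.ctrl_exp (ctrl_of hG) hP),
    Pool.Agent.TH442.NF.hh_open hn (Q := fun d' w' => Controlled d' w')
      (fun hP _ _ _ hG => Pool.Agent.Run7.h866.NU.ctrl_exp (ctrl_of hG) hP) d w⟩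

end Pool.Agent.Results.MP_6b2d39_ag.NearOrbits
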