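import Mathlib
import Pool.Agent.Run7.h823.NG.S4
import Pool.Agent.Run7.h823.NG.S5

set_option autoImplicit false

/-!
# Harbourne-Hirschowitz for all numbers of points at once, and near-uniform multiplicities: sparse families of residues

Let `y_i`, `i ∈ s`, be any finite family of residues modulo an integer `q`, represented by the least residues
`0 ≤ y_i < q`, whose Fourier coefficients at the nonzero frequencies are at most `1 / (K log q)` times their number (`Flat`),
`K` a large constant and `q ≥ K`, and let `c₀` be any natural number. The family can be very sparse, for instance have only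
`q ^ ε` members.

(1) For at least the proportion `1 / 10000 ^ 22` of the members `m = c₀ + y_i`, `K` an absolute constant:
    for EVERY number `n ≥ 10` of points and EVERY degree `d` the system of the curves of degree `d` with `n` general
    points of multiplicity `m` is not special.

(2) For every `n ≥ 10`, `δ > 0`, and `K` large enough in terms of `n` and `δ`: for all but at most the proportion
    `bad n + δ` of the members `W = c₀ + y_i` all vectors of `n` multiplicities with at most two consecutive values and the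
    sum `W` are good in every degree; `bad n < 1`, `bad n = 0` if `n` is a square, `bad 10 < 0.163`.

(3) Examples of such families (for every `K`, `ε > 0`, `k` and all large primes `m`): the first `N ≥ m ^ ε` values
    `c_1 g_1 ^ n + ... + c_k g_k ^ n` modulo `m`, `n < N`, `c ≠ 0`, where the orders of the `g_i` and of the quotients `g_i / g_j`,
    `i ≠ j`, are at least `m ^ ε`.

(4) For every integer `b ≥ 2` and all but `C X ^ ε` of the primes `m ≤ X`: the residues `x b ^ n` modulo `m`, `n < N`, for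
    every `N ≥ m ^ ε` and every `x ≠ 0`. For instance the multiplicities `2 ^ n mod m`, `n < m ^ ε`.

In the starting results the multiplicities are integer parts of generalised polynomials, values of polynomials, primes,
exponential sequences, all long intervals, and almost all sequences with a real parameter.

From Mathlib: `ZMod.stdAddChar`: the additive character `j ↦ exp (2 π i j / q)` of the integers modulo `q`; `ZMod.val`: the
least residue.

Proof. The plane systems are those of helper141 (`Pool.Agent.N141.SG`): a multiplicity is good if its multiples by certain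
square roots lie in certain arcs modulo one. The exponential sums of `θ y_i`, `θ` irrational, are estimated by the Fourier
coefficients modulo `q` (`Pool.Agent.Run7.h823.NG`); those of short recurrences by the method of Bourgain, Glibichuk and
Konyagin (`Pool.Agent.Run7.h823.BK`).
-/

namespace Pool.Agent.Results.MP_6b2d39_ag.ResidueMultiplicities

open MvPolynomial Filter

/-- Forms of degree `d` vanishing to order at least `w i` at the points `(P i 0 : P i 1 : 1)`. -/
noncomputable def forms {n : ℕ} (P : Fin n → Fin 2 → ℂ) (d : ℕ) (w : Fin n → ℕ) :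
    Submodule ℂ (MvPolynomial (Fin 3) ℂ) :=
  homogeneousSubmodule (Fin 3) ℂ d ⊓
    Submodule.restrictScalars ℂ
      (⨅ i : Fin n, (Ideal.span {X 0 - C (P i 0) * X 2, X 1 - C (P i 1) * X 2} :
        Ideal (MvPolynomial (Fin 3) ℂ)) ^ (w i))

/-- The system of the forms of degree `d` with multiplicities `w` at the points `P` is not special:
its vector space dimension is `max (0, (d + 2) (d + 1) / 2 - ∑ (w i + 1) (w i) / 2)`. -/
def NonSpecial {n : ℕ} (P : Fin n → Fin 2 → ℂ) (d : ℕ) (w : Fin n → ℕ) : Prop :=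
  (Module.finrank ℂ ↥(forms P d w) : ℤ) =
    max 0 (((d + 2).choose 2 : ℤ) - ∑ i, ((w i + 1).choose 2 : ℤ))

/-- For general points (one nonempty open set for all degrees) the systems of curves with the
multiplicities `w` are not special, in every degree. -/
def NeverSpecial {n : ℕ} (w : Fin n → ℕ) : Prop :=
  ∃ F : MvPolynomial (Fin n × Fin 2) ℂ, F ≠ 0 ∧ ∀ P : Fin n → Fin 2 → ℂ,
    MvPolynomial.eval (fun ij : Fin n × Fin 2 => P ij.1 ij.2) F ≠ 0 → ∀ d : ℕ, NonSpecial P d w

/-- The multiplicity `m ≥ 1` is good for every number `n ≥ 10` of points and every degree. -/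
def Holds (m : ℕ) : Prop := 1 ≤ m ∧ ∀ n : ℕ, 10 ≤ n → NeverSpecial (fun _ : Fin n => m)

/-- All vectors of `n` positive multiplicities with sum `W` which take at most two consecutive values
`m`, `m + 1` are good in every degree. -/
def Good (n W : ℕ) : Prop :=
  ∀ m : ℕ, 0 < m → ∀ w : Fin n → ℕ, (∀ i, w i = m ∨ w i = m + 1) → ∑ i, w i = W → NeverSpecial w

open Classical in
/-- The bound for the proportion of the bad sums for `n` points. -/
noncomputable def bad (n : ℕ) : ℝ :=
  if IsSquare n then 0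
  else (min (√(n : ℝ) - 3) (2 / 3 + 9 / (4 * √(n : ℝ))) +
    min (√(n : ℝ) - 3) (2 / 3 + 1 / (4 * √(n : ℝ)))) / 2

/-- The Fourier coefficients of the residues `y i`, `i ∈ s`, modulo `q` at the nonzero frequencies are at most `η` times the
number of the residues: `|∑ i ∈ s, e(h y_i / q)| ≤ η |s|` for all `h ≠ 0` modulo `q`. -/
def Flat {τ : Type} (q : ℕ) [NeZero q] (η : ℝ) (s : Finset τ) (y : τ → ZMod q) : Prop :=
  ∀ h : ZMod q, h ≠ 0 → ‖∑ i ∈ s, (ZMod.stdAddChar (h * y i) : ℂ)‖ ≤ η * s.card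

/-- The natural number `c₀ + y_i`, with the least residue `0 ≤ y_i < q`. -/
def mult {τ : Type} {q : ℕ} (y : τ → ZMod q) (c₀ : ℕ) (i : τ) : ℕ := c₀ + (y i).val

theorem never_of {n : ℕ} {w : Fin n → ℕ} (h : Pool.Agent.Run7.h823.NG.ExN w) : NeverSpecial w := by
  obtain ⟨F, hF, hF'⟩ := h
  refine ⟨F.map (algebraMap ℚ ℂ), Pool.Agent.H932R3.map_ne_zero_of hF, fun P hP d => ?_⟩
  rw [MvPolynomial.eval_map] at hP
  have h1 := hF' P hP d
  unfold Pool.Agent.H932R3.ExpDim at h1
  unfold NonSpecial forms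
  rw [h1]
  have e : ∑ i, ((w i + 1).choose 2 : ℤ) = ((∑ i, (w i + 1).choose 2 : ℕ) : ℤ) := by
    push_cast
    rfl
  rw [e]
  omega

theorem bad_ten : bad 10 < 0.163 := by
  have h1 : √((10 : ℕ) : ℝ) < 3.163 := by
    rw [Real.sqrt_lt' (by norm_num)]
    norm_num
  have h0 : ¬ IsSquare 10 := by
    rintro ⟨k, hk⟩
    have : k ≤ 3 := by nlinarith
    interval_cases k <;> omega
  unfold bad
  rw [if_neg h0]
  have h2 := min_le_left (√((10 : ℕ) : ℝ) - 3) (2 / 3 + 9 / (4 * √((10 : ℕ) : ℝ)))
  have h3 := min_le_left (√((10 : ℕ) : ℝ) - 3) (2 / 3 + 1 / (4 * √((10 : ℕ) : ℝ)))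
  linarith

theorem holds_of {m : ℕ} (hm : 1 ≤ m) (h : Pool.Agent.Run7.h823.NG.Tgt (m : ℕ)) : Holds m :=
  ⟨hm, fun _ hn => never_of (w := fun _ => m) (Pool.Agent.Run7.h823.NG.every h hm hn)⟩

theorem good_of {n W : ℕ} (h : Pool.Agent.Run7.h823.NG.GoodN n W) : Good n W :=
  fun m hm w hw hsum => never_of (h m hm w hw hsum)

/-- **Main result.** (1) A positive proportion of the members is good for all numbers of points at once. (2) One number of
points: at most the proportion `bad n + δ` is bad. (3), (4) Examples. (5) The bounds for the proportions. -/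
theorem result :
    (∃ K : ℕ, 0 < K ∧ ∀ (q : ℕ) [NeZero q], K ≤ q → ∀ (τ : Type) (s : Finset τ) (y : τ → ZMod q),
      Flat q (1 / (K * Real.log q)) s y → ∀ c₀ : ℕ,
      1 / 10000 ^ 22 * (s.card : ℝ) ≤ ({i : τ | i ∈ s ∧ Holds (mult y c₀ i)}.ncard : ℝ)) ∧
    (∀ n : ℕ, 10 ≤ n → ∀ δ : ℝ, 0 < δ → ∃ K : ℕ, 0 < K ∧ ∀ (q : ℕ) [NeZero q], K ≤ q →
      ∀ (τ : Type) (s : Finset τ) (y : τ → ZMod q), Flat q (1 / (K * Real.log q)) s y → ∀ c₀ : ℕ,
      ({i : τ | i ∈ s ∧ ¬ Good n (mult y c₀ i)}.ncard : ℝ) ≤ (bad n + δ) * s.card) ∧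
    (∀ (k K : ℕ) (ε : ℝ), 0 < K → 0 < ε → ∃ m₀ : ℕ, ∀ (m : ℕ) [Fact m.Prime], m₀ ≤ m →
      ∀ (c : Fin k → ZMod m) (g : Fin k → (ZMod m)ˣ) (N : ℕ), c ≠ 0 → (∀ i, (m : ℝ) ^ ε ≤ orderOf (g i)) →
      (∀ i j, i ≠ j → (m : ℝ) ^ ε ≤ orderOf (g i / g j)) → (m : ℝ) ^ ε ≤ N →
      Flat m (1 / (K * Real.log m)) (Finset.range N) (fun n => ∑ i, c i * (g i : ZMod m) ^ n)) ∧
    (∀ (b K : ℕ) (ε : ℝ), 2 ≤ b → 0 < K → 0 < ε → ∃ C : ℝ, ∀ X : ℕ, 1 ≤ X → ∀ Q : Finset ℕ,
      (∀ m ∈ Q, m ≤ X ∧ ∃ _ : Fact m.Prime, ¬ ∀ N : ℕ, (m : ℝ) ^ ε ≤ N → ∀ x : ZMod m, x ≠ 0 →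
        Flat m (1 / (K * Real.log m)) (Finset.range N) (fun n => x * (b : ZMod m) ^ n)) →
      (Q.card : ℝ) ≤ C * (X : ℝ) ^ ε) ∧
    (∀ n : ℕ, 10 ≤ n → bad n < 1) ∧ bad 10 < 0.163 := by
  refine ⟨?_, ?_, ?_, ?_, ?_, ?_⟩
  · obtain ⟨K, hK, h⟩ := Pool.Agent.Run7.h823.NG.tgt_flat
    refine ⟨K, hK, fun q _ hq τ s y hf c₀ => (h q hq τ s y hf (c₀ : ℤ)).trans ?_⟩
    apply Pool.Agent.Run7.h823.WF.ncard_mono
    intro i _ h1
    have e1 : (c₀ : ℤ) + ((y i).val : ℕ) = ((mult y c₀ i : ℕ) : ℤ) := by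
      unfold mult
      push_cast
      rfl
    rw [e1] at h1
    rcases Nat.eq_zero_or_pos (mult y c₀ i) with h0 | h0
    · exfalso
      rw [h0] at h1
      exact Pool.Agent.Run7.h823.NG.not_tgt_zero h1
    · exact holds_of h0 h1
  · intro n hn δ hδ
    obtain ⟨K, hK, h⟩ := Pool.Agent.Run7.h823.NG.near_flat hn hδ
    refine ⟨K, hK, fun q _ hq τ s y hf c₀ => le_trans ?_ (h q hq τ s y hf (c₀ : ℤ))⟩
    apply Pool.Agent.Run7.h823.WF.ncard_mono
    intro i _ h2
    rcases Nat.eq_zero_or_pos (mult y c₀ i) with h0 | h0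
    · exfalso
      apply h2
      rw [h0]
      exact good_of (Pool.Agent.Run7.h823.NG.good_zero hn)
    · refine ⟨mult y c₀ i, h0, ?_, fun h3 => h2 (good_of h3)⟩
      unfold mult
      push_cast
      rfl
  · exact fun k K ε hK hε => Pool.Agent.Run7.h823.NG.ex_rec k K hK hε
  · exact fun b K ε hb hK hε => Pool.Agent.Run7.h823.NG.ex_pow b K hb hK hε
  · exact fun n hn => Pool.Agent.Run7.h823.NG.badN_lt hn
  · exact bad_ten

end Pool.Agent.Results.MP_6b2d39_ag.ResidueMultiplicities
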